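import Pool.Agent.H79.PRK.S6
import Pool.Agent.H25.PRL.CGB

/-!
# PRK, row CLBK: the class groups of the extensions are finite
-/

set_option autoImplicit false

namespace Pool.PRK

open Polynomial Matrix Pool.HYP Pool.TOW Pool.AVS Pool.T1 IsDedekindDomain

/-- Finiteness of the class group, for a ring `S` which is the integral closure of `F[t]`. -/
theorem clg (F : Type) [Field F] [Finite F] (L : Type) [Field L] [Algebra (RatFunc F) L]
    [FiniteDimensional (RatFunc F) L] [Algebra.IsSeparable (RatFunc F) L]
    (S : Type) [CommRing S] [IsDomain S] [Algebra S L]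
    (hinj : Function.Injective (algebraMap S L)) (φ : F[X] →+* S)
    (hφ : (algebraMap S L).comp φ = (algebraMap (RatFunc F) L).comp (algebraMap F[X] (RatFunc F)))
    (hint : ∀ x : L, ((algebraMap (RatFunc F) L).comp (algebraMap F[X] (RatFunc F))).IsIntegralElem x ↔
      ∃ y, algebraMap S L y = x) : Finite (ClassGroup S) := by
  classical
  let algL : Algebra F[X] L := ((algebraMap (RatFunc F) L).comp (algebraMap F[X] (RatFunc F))).toAlgebra
  let algS : Algebra F[X] S := φ.toAlgebra
  have h1 : IsScalarTower F[X] (RatFunc F) L := IsScalarTower.of_algebraMap_eq fun x => rfl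
  have h2 : IsScalarTower F[X] S L := IsScalarTower.of_algebraMap_eq fun x =>
    (RingHom.congr_fun hφ x).symm
  have h3 : IsIntegralClosure S F[X] L := ⟨hinj, fun {x} => hint x⟩
  have := Fintype.ofFinite F
  exact @Fintype.finite _ (ClassGroup.fintypeOfAdmissibleOfFinite (RatFunc F)
    L (Polynomial.cardPowDegreeIsAdmissible :
      AbsoluteValue.IsAdmissible (Polynomial.cardPowDegree : AbsoluteValue F[X] ℤ)))

theorem clbk_thm : CLBKStmt := by
  intro F _ _ K _ _ _ _ f hirr hm hsep
  have hm' : (fk K f).Monic := hm.map _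
  have hsepL : Algebra.IsSeparable K (AdjoinRoot (fk K f)) := Pool.PRL.CG.isSep _ hm' hsep
  have hfinL : FiniteDimensional K (AdjoinRoot (fk K f)) :=
    hm'.finite_adjoinRoot
  have hfin : FiniteDimensional (RatFunc F) (AdjoinRoot (fk K f)) :=
    FiniteDimensional.trans (RatFunc F) K _
  have hsepF : Algebra.IsSeparable (RatFunc F) (AdjoinRoot (fk K f)) :=
    Algebra.IsSeparable.trans (RatFunc F) K _
  have hcomp : (algebraMap (RatFunc F) (AdjoinRoot (fk K f))).comp (algebraMap F[X] (RatFunc F)) =
      (algebraMap (RR F K) (AdjoinRoot (fk K f))).comp (xR F K) := by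
    refine RingHom.ext fun x => ?_
    rw [RingHom.comp_apply, RingHom.comp_apply,
      IsScalarTower.algebraMap_apply (RatFunc F) K (AdjoinRoot (fk K f)),
      IsScalarTower.algebraMap_apply (RR F K) K (AdjoinRoot (fk K f))]
    rfl
  refine clg F (AdjoinRoot (fk K f)) (integralClosure (RR F K) (AdjoinRoot (fk K f)))
    Subtype.val_injective
    ((algebraMap (RR F K) (integralClosure (RR F K) (AdjoinRoot (fk K f)))).comp (xR F K)) ?_ ?_
  · rw [hcomp]
    rfl
  · intro x
    constructor
    · rintro ⟨p, hp, hpx⟩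
      rw [hcomp, ← Polynomial.eval₂_map] at hpx
      exact ⟨⟨x, ⟨p.map (xR F K), hp.map _, hpx⟩⟩, rfl⟩
    · rintro ⟨y, rfl⟩
      let algA : Algebra F[X] (AdjoinRoot (fk K f)) :=
        ((algebraMap (RR F K) (AdjoinRoot (fk K f))).comp (xR F K)).toAlgebra
      have htow : IsScalarTower F[X] (RR F K) (AdjoinRoot (fk K f)) :=
        IsScalarTower.of_algebraMap_eq fun x => rfl
      have hfR : Module.Finite F[X] (RR F K) := finite_RR F K
      have hiR : Algebra.IsIntegral F[X] (RR F K) := Algebra.IsIntegral.of_finite _ _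
      rw [hcomp]
      exact isIntegral_trans (R := F[X]) (A := RR F K) (y : AdjoinRoot (fk K f)) y.2

end Pool.PRK
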