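import Pool.Agent.H79.PRK.S6
import Pool.Agent.H91.T1.EXDB

/-!
# PRK, row EXZK: existence of data of trace zero
-/

set_option autoImplicit false

namespace Pool.PRK

open Polynomial Matrix Pool.HYP Pool.TOW Pool.AVS Pool.T1 IsDedekindDomain

/-- The coefficient after the leading one, after a translation. -/
theorem coeff_tay {k : Type} [CommRing k] (f : k[X]) (n : ℕ) (hf : f.Monic) (hn : f.natDegree = n + 1)
    (t : k) : (taylor t f).coeff n = f.coeff n + ((n + 1 : ℕ) : k) * t := by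
  rw [taylor_coeff]
  have h1 : (hasseDeriv n f).natDegree < 2 := by
    have := natDegree_hasseDeriv_le f n
    omega
  rw [eval_eq_sum_range' h1, Finset.sum_range_succ, Finset.sum_range_one, hasseDeriv_coeff,
    hasseDeriv_coeff, zero_add, Nat.choose_self, Nat.cast_one, one_mul, pow_zero, mul_one,
    add_comm 1 n, Nat.choose_succ_self_right, pow_one]
  have h2 : f.coeff (n + 1) = 1 := by
    rw [← hn]
    exact hf
  rw [h2, mul_one]

/-- An irreducible polynomial of trace zero. -/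
theorem exIrr0 (k : Type) [Field k] [Finite k] (n : ℕ) :
    ∃ p : k[X], p.Monic ∧ Irreducible p ∧ p.natDegree = n + 1 ∧
      (((n + 1 : ℕ) : k) ≠ 0 → p.coeff n = 0) := by
  obtain ⟨p, h1, h2, h3⟩ := Pool.HYP.Exd24.exIrr k (n + 1) (by omega)
  by_cases hk : ((n + 1 : ℕ) : k) = 0
  · exact ⟨p, h1, h2, h3, fun h => absurd hk h⟩
  · refine ⟨taylor (-(p.coeff n) / ((n + 1 : ℕ) : k)) p, ?_, ?_, ?_, fun _ => ?_⟩
    · rw [Monic, leadingCoeff_taylor]
      exact h1
    · rw [← coe_taylorEquiv]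
      exact (MulEquiv.irreducible_iff (taylorEquiv (-(p.coeff n) / ((n + 1 : ℕ) : k)))).mpr h2
    · rw [natDegree_taylor, h3]
    · rw [coeff_tay p n h1 h3, mul_div_cancel₀ _ hk, add_neg_cancel]

/-- A monic lift. -/
theorem exLift0 {R : Type} [CommRing R] [IsDedekindDomain R]
    (hfin : ∀ I : Ideal R, I ≠ ⊥ → Finite (R ⧸ I)) (n : ℕ)
    (P : HeightOneSpectrum R) : ∃ γ : R[X], OkP (n + 1) P.asIdeal γ ∧
      (IsUnit ((n + 1 : ℕ) : R) → γ.coeff n ∈ P.asIdeal) := by
  have hm : P.asIdeal.IsMaximal := P.isMaximal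
  have hf : Finite (R ⧸ P.asIdeal) := hfin P.asIdeal P.ne_bot
  let _ : Field (R ⧸ P.asIdeal) := Ideal.Quotient.field P.asIdeal
  obtain ⟨p, h3, h4, h5, h6'⟩ := exIrr0 (R ⧸ P.asIdeal) n
  have h6 : p ∈ lifts (Ideal.Quotient.mk P.asIdeal) := by
    rw [lifts_iff_coeff_lifts]
    intro i
    exact Ideal.Quotient.mk_surjective _
  obtain ⟨q, h7, h8, h9⟩ := lifts_and_natDegree_eq_and_monic h6 h3
  refine ⟨q, ⟨h9, by rw [h8, h5], ?_⟩, fun hu => ?_⟩
  · change Irreducible (q.map (Ideal.Quotient.mk P.asIdeal))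
    rw [h7]
    exact h4
  · rw [← Ideal.Quotient.eq_zero_iff_mem, ← coeff_map, h7]
    apply h6'
    have h10 := hu.map (Ideal.Quotient.mk P.asIdeal)
    rw [map_natCast] at h10
    exact h10.ne_zero

/-- **EXZK**. -/
theorem exzk_thm : EXZKStmt := by
  classical
  intro R _ _ K _ _ _ O π hR hex hsm g T' k b hg
  have h2 : ∀ P : HeightOneSpectrum R, ∃ γ : R[X], OkP (2 * g + 1) P.asIdeal γ ∧
      (IsUnit ((2 * g + 1 : ℕ) : R) → γ.coeff (2 * g) ∈ P.asIdeal) :=
    fun P => exLift0 hR.fin (2 * g) P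
  choose ρ hρ using h2
  have hres : Finite (IsLocalRing.ResidueField O) := hR.res
  obtain ⟨top, h3, h4, h5, h6⟩ := exIrr0 (IsLocalRing.ResidueField O) (2 * g)
  obtain ⟨D, hD, hc, hb, hT', hρ', htop⟩ := exdb R K O π hR hex hsm g
    ⟨∅, T', fun _ => 0, fun _ => 0, ρ, top⟩ k b hg
    ⟨Finset.disjoint_empty_left _, fun P hP => absurd hP (Finset.notMem_empty P),
      fun P _ => (hρ P).1, h3, h5, h4⟩ rfl
  refine ⟨⟨D.T, T', fun P => (D.γ P).coeff (2 * g - 1), D.γ, ρ, top⟩, ⟨?_, hD.2.1, fun P _ => (hρ P).1,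
    h3, h5, h4⟩, rfl, hc, hb, fun hu => ⟨fun P hP => ?_, fun P hP => ?_, ?_⟩⟩
  · have h := hD.1
    rw [hT'] at h
    exact h
  · obtain ⟨g', rfl⟩ : ∃ g', g = g' + 1 := ⟨g - 1, by omega⟩
    have h7 := (hD.2.1 P hP).2.1
    have h8 : (D.γ P).coeff (2 * (g' + 1)) = 1 := by
      rw [← h7]
      exact (hD.2.1 P hP).1
    show ((X - C ((D.γ P).coeff (2 * (g' + 1) - 1))) * D.γ P).coeff (2 * (g' + 1)) ∈ P.asIdeal
    rw [show 2 * (g' + 1) = (2 * g' + 1) + 1 by ring] at h8 ⊢
    rw [sub_mul, coeff_sub, coeff_X_mul, coeff_C_mul, h8, mul_one, Nat.add_sub_cancel, sub_self]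
    exact P.asIdeal.zero_mem
  · exact (hρ P).2 hu
  · apply h6
    obtain ⟨p, hp, hcp⟩ := hR.char
    have hK : ((2 * g + 1 : ℕ) : K) ≠ 0 := by
      have h10 := hu.map (algebraMap R K)
      rw [map_natCast] at h10
      exact h10.ne_zero
    intro h0
    have hcp' : ((p : ℕ) : IsLocalRing.ResidueField O) = 0 := by
      have h11 : ((p : ℕ) : O) = 0 := by
        apply Subtype.val_injective
        show (((p : ℕ) : O) : K) = 0
        have h12 : (((p : ℕ) : O) : K) = ((p : ℕ) : K) := by push_cast; rfl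
        rw [h12]
        exact CharP.cast_eq_zero K p
      have h13 := congrArg (IsLocalRing.residue O) h11
      rw [map_natCast, map_zero] at h13
      exact h13
    have hcop : Nat.Coprime (2 * g + 1) p := by
      rw [Nat.coprime_comm, hp.coprime_iff_not_dvd]
      intro hd
      exact hK ((CharP.cast_eq_zero_iff K p _).mpr hd)
    have hic : IsCoprime ((2 * g + 1 : ℕ) : ℤ) (p : ℤ) := Nat.isCoprime_iff_coprime.mpr hcop
    obtain ⟨a, b', hab⟩ := hic
    have h14 := congrArg (fun z : ℤ => (z : IsLocalRing.ResidueField O)) hab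
    simp only [Int.cast_add, Int.cast_mul, Int.cast_natCast, Int.cast_one] at h14
    rw [h0, hcp', mul_zero, mul_zero, add_zero] at h14
    exact zero_ne_one h14

end Pool.PRK
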